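import Pool.Agent.Q289.PK.Main

/-!
# The mean number of visits need not follow a power law (negative answer to Q2)

On the free group with generators `a`, `b`, with the kernel `K(g, ga) = K(g, gb) = 1/2`, the
expected number of visits in the parking process at density `p < 1/2` is at most
`1 + log (1 / (1 - 2 p))`. Hence `(1/2 - p) ^ γ` times it tends to `0` for every `γ > 0`.

The idea: the visits that a vertex receives from its two predecessors are independent, so the
generating functions satisfy a recursion; at the points `1 - 2 ^ (-k)` it gives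
`- 2 ^ k log F (1 - 2 ^ (-k)) ≤ 1 - log F 0`, and `F 0 ≥ 1 - 2 p` by conservation of mass.
-/

set_option autoImplicit false

namespace Pool.Agent.Results.MP_971c94_pr.NoPowerLaw

open Pool.Agent.TH996.Parking Filter Topology

/-- **Q2 is false.** The parking process on the Cayley graph of the free group on two generators,
where a car moves from `u` to `u a` or `u b` with probability `1/2` each. -/
theorem result :
    ∃ (G : SimpleGraph (FreeGroup Bool)) (_ : G.LocallyFinite)
      (K : FreeGroup Bool → FreeGroup Bool → ℝ) (Γ : Subgroup (Equiv.Perm (FreeGroup Bool))),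
      (∀ u v, G.Adj u v ↔ ∃ g : Bool, v = u * FreeGroup.of g ∨ u = v * FreeGroup.of g) ∧
      (∀ u v, K u v =
        if v = u * FreeGroup.of true ∨ v = u * FreeGroup.of false then 1 / 2 else 0) ∧
      Infinite (FreeGroup Bool) ∧ G.Connected ∧ IsKernel G K ∧ IsAut G K Γ ∧ IsTransitive Γ ∧
      IsUnimodular Γ ∧ IsInfinitelyAccessible G K Γ ∧
      (∀ (p : ℝ) (x : FreeGroup Bool), 0 ≤ p → p < 1 / 2 →
        expectedVisits G K p x ≤ ENNReal.ofReal (1 + Real.log (1 / (1 - 2 * p)))) ∧
      (∀ (x : FreeGroup Bool) (γ : ℝ), 0 < γ →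
        Tendsto (fun p : ℝ => (expectedVisits G K p x).toReal * (1 / 2 - p) ^ γ)
          (𝓝[<] (1 / 2)) (𝓝 0)) ∧
      ∀ x : FreeGroup Bool, ¬ ∃ γ C : ℝ, 0 < γ ∧ 0 < C ∧
        Tendsto (fun p : ℝ => (expectedVisits G K p x).toReal * (1 / 2 - p) ^ γ)
          (𝓝[<] (1 / 2)) (𝓝 C) := by
  refine ⟨Q289.PK.G2, inferInstance, Q289.PK.K2, Q289.PK.Gam, fun u v => Iff.rfl,
    fun u v => rfl, inferInstance, Q289.PK.connected2, Q289.PK.kernel2, Q289.PK.aut2,
    Q289.PK.trans2, Q289.PK.unimod2, Q289.PK.infacc2, fun p x h0 h1 => ?_,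
    fun x γ hγ => Q289.PK.tendsto_zero x γ hγ, ?_⟩
  · exact Q289.PK.visits_le (p := p) ⟨h0, by linarith⟩ h1 x
  · rintro x ⟨γ, C, hγ, hC, h⟩
    have h2 := tendsto_nhds_unique h (Q289.PK.tendsto_zero x γ hγ)
    exact hC.ne' h2

end Pool.Agent.Results.MP_971c94_pr.NoPowerLaw
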